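import Pool.Agent.Lib_helper48.OT.Fft3

/-! Mixed first fundamental theorem (symplectic and general linear factors): positions. -/

set_option linter.unusedSectionVars false
set_option linter.unusedSimpArgs false

namespace Pool.Agent.MFT

open Module Finset Pool.Agent.OT

section pos

variable {A B : Type*} [Fintype A] [DecidableEq A] [Fintype B] [DecidableEq B] {C : Type*}
  [DecidableEq C]

/-- The operator D in coordinates, with weights. -/
def Dm {R : Type*} [CommRing R] (δ : C → ℕ) (c : B → C) (P : Finset A) (F : (A → B) → R) :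
    (A → B) → R :=
  fun β => ∑ a ∈ P, (((univ.filter (fun b => c b = c (β a))).card + δ (c (β a)) : ℕ) * F β
    + ∑ a' ∈ P.erase a, if c (β a) = c (β a') then F (β ∘ Equiv.swap a a') else 0)

theorem Dm_eq {R : Type*} [CommRing R] (δ : C → ℕ) (c : B → C) (P : Finset A) (F : (A → B) → R)
    (β : A → B) :
    Dm δ c P F β = (∑ a ∈ P, (δ (c (β a)) : R)) * F β
      + ∑ b, ∑ b', if c b = c b' then OT.Top P b b' (OT.Top P b' b F) β else 0 := by
  have h := Dc_eq c P F β
  have h2 : Dm δ c P F β = Dc c P F β + (∑ a ∈ P, (δ (c (β a)) : R)) * F β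
      - (P.card : R) * F β := by
    unfold Dm Dc
    rw [Finset.sum_mul, ← nsmul_eq_mul, ← Finset.sum_const, ← Finset.sum_add_distrib,
      ← Finset.sum_sub_distrib]
    refine Finset.sum_congr rfl fun a _ => ?_
    push_cast
    ring
  rw [h2, h]
  ring

theorem Top_diag {R : Type*} [CommRing R] (P : Finset A) (b : B) (F : (A → B) → R) (β : A → B) :
    OT.Top P b b F β = ((P.filter (fun a => β a = b)).card : R) * F β := by
  unfold OT.Top
  rw [← Finset.sum_filter]
  have : ∀ a ∈ P.filter (fun a => β a = b), F (Function.update β a b) = F β := by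
    intro a ha
    have := (Finset.mem_filter.mp ha).2
    rw [← this, Function.update_eq_self]
  rw [Finset.sum_congr rfl this, Finset.sum_const, nsmul_eq_mul]

theorem Dm_inj_rat (δ : C → ℕ) (c : B → C) (P : Finset A) (hP : P.Nonempty) (F : (A → B) → ℚ)
    (h : ∀ β, Dm δ c P F β = 0) : ∀ β, F β = 0 := by
  have h1 : ∑ β, Dm δ c P F β * F β = 0 := by simp [h]
  simp only [Dm_eq, add_mul, Finset.sum_add_distrib, Finset.sum_mul (s := univ)] at h1
  have h2 : ∑ β, ∑ b, ∑ b', (if c b = c b' then OT.Top P b b' (OT.Top P b' b F) β else 0) * F β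
      = ∑ b, ∑ b', if c b = c b' then ∑ β, OT.Top P b' b F β * OT.Top P b' b F β else 0 := by
    rw [Finset.sum_comm]
    refine Finset.sum_congr rfl fun b _ => ?_
    rw [Finset.sum_comm]
    refine Finset.sum_congr rfl fun b' _ => ?_
    split_ifs with hc
    · rw [Top_adj]
    · simp
  rw [h2] at h1
  have h30 : ∀ b b', 0 ≤ if c b = c b' then ∑ β, OT.Top P b' b F β * OT.Top P b' b F β else 0 := by
    intro b b'
    split_ifs
    · exact Finset.sum_nonneg fun β _ => mul_self_nonneg _
    · exact le_rfl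
  have h4 : 0 ≤ ∑ β : A → B, (∑ a ∈ P, (δ (c (β a)) : ℚ)) * F β * F β := by
    refine Finset.sum_nonneg fun β _ => ?_
    rw [mul_assoc]
    exact mul_nonneg (Finset.sum_nonneg fun a _ => Nat.cast_nonneg _) (mul_self_nonneg _)
  have h3 : 0 ≤ ∑ b, ∑ b', if c b = c b' then ∑ β, OT.Top P b' b F β * OT.Top P b' b F β else 0 :=
    Finset.sum_nonneg fun b _ => Finset.sum_nonneg fun b' _ => h30 b b'
  have h5 : ∑ b, ∑ b', (if c b = c b' then ∑ β, OT.Top P b' b F β * OT.Top P b' b F β else 0) = 0 := by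
    linarith
  intro β
  obtain ⟨a, ha⟩ := hP
  have h6 := (Finset.sum_eq_zero_iff_of_nonneg (fun b _ =>
    Finset.sum_nonneg fun b' _ => h30 b b')).mp h5 (β a) (Finset.mem_univ _)
  have h7 := (Finset.sum_eq_zero_iff_of_nonneg (fun b' _ => h30 (β a) b')).mp h6 (β a)
    (Finset.mem_univ _)
  rw [if_pos rfl] at h7
  have h8 := (Finset.sum_eq_zero_iff_of_nonneg (fun β _ => mul_self_nonneg _)).mp h7 β
    (Finset.mem_univ _)
  have h9 := mul_self_eq_zero.mp h8
  rw [Top_diag] at h9
  refine (mul_eq_zero.mp h9).resolve_left ?_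
  rw [Nat.cast_eq_zero]
  exact Finset.card_ne_zero.mpr ⟨a, Finset.mem_filter.mpr ⟨ha, rfl⟩⟩

theorem Dm_inj {K : Type*} [Field K] [CharZero K] (δ : C → ℕ) (c : B → C) (P : Finset A)
    (hP : P.Nonempty) (F : (A → B) → K) (h : ∀ β, Dm δ c P F β = 0) : ∀ β, F β = 0 := by
  intro β
  rw [← Module.forall_dual_apply_eq_zero_iff ℚ]
  intro φ
  refine Dm_inj_rat δ c P hP (fun β => φ (F β)) ?_ β
  intro γ
  have h1 := congrArg φ (h γ)
  rw [map_zero] at h1
  rw [← h1]
  unfold Dm
  rw [map_sum]
  refine Finset.sum_congr rfl fun a _ => ?_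
  rw [map_add, map_sum, ← nsmul_eq_mul, ← nsmul_eq_mul, map_nsmul]
  congr 1
  refine Finset.sum_congr rfl fun a' _ => ?_
  split_ifs
  · rfl
  · rw [map_zero]

end pos

end Pool.Agent.MFT
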