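import Pool.Agent.Lib_helper24.MF.F1

/-! Mixed first fundamental theorem: decompositions, pairings, the operator D. -/

set_option linter.unusedSectionVars false
set_option linter.unusedSimpArgs false

namespace Pool.Agent.MFT

open Module Finset Pool.Agent.OT

variable {K : Type*} [Field K] [CharZero K]
variable {V : Type*} [AddCommGroup V] [Module K V] [FiniteDimensional K V]
variable {C : Type*} [Fintype C] [DecidableEq C]
variable {A : Type*} [Fintype A] [DecidableEq A]

/-- A nondegenerate skew form and a decomposition of the identity into idempotents such that the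
adjoint of the idempotent `c` is the idempotent `p c`. -/
structure Dec (Ω : LinearMap.BilinForm K V) (π : C → Module.End K V) (p : C → C) : Prop where
  nd : Ω.Nondegenerate
  alt : ∀ v w, Ω v w = - Ω w v
  idem : ∀ c c', π c * π c' = if c = c' then π c else 0
  sum : ∑ c, π c = 1
  inv : ∀ c, p (p c) = c
  adj : ∀ c v w, Ω (π c v) w = Ω v (π (p c) w)

variable {Ω : LinearMap.BilinForm K V} {π : C → Module.End K V} {p : C → C}

theorem Dec.idem_apply (H : Dec Ω π p) (c c' : C) (v : V) :
    π c (π c' v) = if c = c' then π c v else 0 := by
  have := LinearMap.congr_fun (H.idem c c') v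
  rw [Module.End.mul_apply] at this
  rw [this]
  split_ifs <;> rfl

theorem Dec.idem_self (H : Dec Ω π p) (c : C) (v : V) : π c (π c v) = π c v := by
  rw [H.idem_apply, if_pos rfl]

theorem Dec.adj' (H : Dec Ω π p) (c : C) (v w : V) : Ω v (π c w) = Ω (π (p c) v) w := by
  rw [H.adj, H.inv]

theorem Dec.sum_apply (H : Dec Ω π p) (v : V) : ∑ c, π c v = v := by
  have := LinearMap.congr_fun H.sum v
  rwa [LinearMap.sum_apply, Module.End.one_apply] at this

/-- The decomposition of the space. -/
noncomputable def Dec.equiv (H : Dec Ω π p) : V ≃ₗ[K] (∀ c, LinearMap.range (π c)) where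
  toFun v := fun c => ⟨π c v, ⟨v, rfl⟩⟩
  map_add' v w := by
    funext c
    exact Subtype.ext (map_add _ _ _)
  map_smul' r v := by
    funext c
    exact Subtype.ext (map_smul _ _ _)
  invFun x := ∑ c, (x c : V)
  left_inv v := H.sum_apply v
  right_inv x := by
    funext c
    apply Subtype.ext
    show π c (∑ c', (x c' : V)) = x c
    rw [map_sum]
    have h : ∀ c', π c (x c' : V) = if c = c' then (x c' : V) else 0 := by
      intro c'
      obtain ⟨z, hz⟩ := (x c').2
      rw [← hz, H.idem_apply]
      split_ifs with h
      · rw [h]
      · rfl
    simp only [h]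
    rw [Finset.sum_ite_eq, if_pos (Finset.mem_univ _)]

/-- There is a basis adapted to the decomposition. -/
theorem Dec.basis (H : Dec Ω π p) :
    ∃ e : Basis (Σ c, Fin (finrank K (LinearMap.range (π c)))) K V,
      ∀ b c, π c (e b) = if b.1 = c then e b else 0 := by
  classical
  refine ⟨(Pi.basis (fun c => Module.finBasis K (LinearMap.range (π c)))).map H.equiv.symm, ?_⟩
  intro b c
  rw [Basis.map_apply]
  have h1 : H.equiv (H.equiv.symm ((Pi.basis (fun c => Module.finBasis K (LinearMap.range (π c)))) b))
      = Pi.basis (fun c => Module.finBasis K (LinearMap.range (π c))) b := H.equiv.apply_symm_apply _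
  have h2 : ∀ v, ((H.equiv v) c : V) = π c v := fun v => rfl
  rw [← h2, h1, Pi.basis_apply]
  have h3 : ∀ x : (∀ c, LinearMap.range (π c)), H.equiv.symm x = ∑ c, (x c : V) := fun x => rfl
  rw [h3]
  by_cases h : b.1 = c
  · rw [if_pos h]
    subst h
    rw [Finset.sum_eq_single b.1]
    · intro c _ hc
      rw [Pi.single_eq_of_ne hc]; rfl
    · intro h; exact absurd (Finset.mem_univ _) h
  · rw [if_neg h, Pi.single_eq_of_ne (Ne.symm h)]; rfl

/-- Products of pairings. -/
inductive PairM (Ω : LinearMap.BilinForm K V) (π : C → Module.End K V) :
    Finset A → ((A → V) → K) → Prop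
  | one : PairM Ω π ∅ (fun _ => 1)
  | mul {P : Finset A} {F : (A → V) → K} (a a' : A) (c : C) (h : a ≠ a') (ha : a ∉ P)
      (ha' : a' ∉ P) (hF : PairM Ω π P F) :
      PairM Ω π (insert a (insert a' P)) (fun v => Ω (π c (v a)) (v a') * F v)

/-- Invariance in the positions P under all skew endomorphisms commuting with the idempotents. -/
def InvM (Ω : LinearMap.BilinForm K V) (π : C → Module.End K V) (P : Finset A)
    (f : (A → V) → K) : Prop :=
  ∀ y : Module.End K V, Sk Ω y → (∀ c, y * π c = π c * y) → ∀ v : A → V,
    ∑ a ∈ P, f (Function.update v a (y (v a))) = 0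

theorem PairM.pml {P : Finset A} {F : (A → V) → K} (h : PairM Ω π P F) : PML K P F := by
  induction h with
  | one => exact ⟨by simp, by simp, by simp⟩
  | @mul P F a a' i hne ha ha' hF ih =>
    have hF1 : ∀ v x, F (Function.update v a x) = F v := ih.const a ha
    have hF2 : ∀ v x, F (Function.update v a' x) = F v := ih.const a' ha'
    refine ⟨?_, ?_, ?_⟩
    · intro b hb v x y
      by_cases h1 : b = a
      · subst h1
        simp only [Function.update_self, Function.update_of_ne hne.symm, hF1, map_add,
          LinearMap.add_apply]
        ring
      by_cases h2 : b = a'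
      · subst h2
        simp only [Function.update_self, Function.update_of_ne hne, hF2, map_add]
        ring
      have hbP : b ∈ P := by
        rcases Finset.mem_insert.mp hb with h | h
        · exact absurd h h1
        rcases Finset.mem_insert.mp h with h | h
        · exact absurd h h2
        · exact h
      simp only [Function.update_of_ne (Ne.symm h1), Function.update_of_ne (Ne.symm h2), ih.add b hbP]
      ring
    · intro b hb v c x
      by_cases h1 : b = a
      · subst h1
        simp only [Function.update_self, Function.update_of_ne hne.symm, hF1, map_smul,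
          LinearMap.smul_apply, smul_eq_mul]
        ring
      by_cases h2 : b = a'
      · subst h2
        simp only [Function.update_self, Function.update_of_ne hne, hF2, map_smul, smul_eq_mul]
        ring
      have hbP : b ∈ P := by
        rcases Finset.mem_insert.mp hb with h | h
        · exact absurd h h1
        rcases Finset.mem_insert.mp h with h | h
        · exact absurd h h2
        · exact h
      simp only [Function.update_of_ne (Ne.symm h1), Function.update_of_ne (Ne.symm h2), ih.smul b hbP]
      ring
    · intro b hb v x
      have h1 : b ≠ a := fun h => hb (by rw [h]; exact Finset.mem_insert_self _ _)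
      have h2 : b ≠ a' := fun h => hb (by
        rw [h]; exact Finset.mem_insert_of_mem (Finset.mem_insert_self _ _))
      have h3 : b ∉ P := fun h => hb (Finset.mem_insert_of_mem (Finset.mem_insert_of_mem h))
      simp only [Function.update_of_ne h1.symm, Function.update_of_ne h2.symm, ih.const b h3]

/-- Each position of a product of pairings has a label. -/
theorem PairM.label (H : Dec Ω π p) {P : Finset A} {F : (A → V) → K} (h : PairM Ω π P F) :
    ∀ a ∈ P, ∃ c₀, ∀ (c : C) (v : A → V),
      F (Function.update v a (π c (v a))) = if c = c₀ then F v else 0 := by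
  induction h with
  | one => intro a ha; exact absurd ha (Finset.notMem_empty a)
  | @mul P F a a' c₁ hne ha ha' hF ih =>
    have hF1 : ∀ v x, F (Function.update v a x) = F v := hF.pml.const a ha
    have hF2 : ∀ v x, F (Function.update v a' x) = F v := hF.pml.const a' ha'
    intro b hb
    by_cases h1 : b = a
    · subst h1
      refine ⟨c₁, fun c v => ?_⟩
      simp only [Function.update_self, Function.update_of_ne hne.symm, hF1, H.idem_apply]
      by_cases h : c = c₁
      · rw [if_pos h.symm, if_pos h]
      · rw [if_neg (Ne.symm h), if_neg h, map_zero, LinearMap.zero_apply, zero_mul]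
    by_cases h2 : b = a'
    · subst h2
      refine ⟨p c₁, fun c v => ?_⟩
      simp only [Function.update_self, Function.update_of_ne hne, hF2, H.adj', H.idem_apply]
      by_cases h : c = p c₁
      · rw [if_pos h, if_pos (by rw [h, H.inv]), h, H.inv]
      · rw [if_neg h, if_neg (fun h' => h (by rw [← h', H.inv])), map_zero, LinearMap.zero_apply,
          zero_mul]
    have hbP : b ∈ P := by
      rcases Finset.mem_insert.mp hb with h | h
      · exact absurd h h1
      rcases Finset.mem_insert.mp h with h | h
      · exact absurd h h2
      · exact h
    obtain ⟨i₀, hi₀⟩ := ih b hbP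
    refine ⟨i₀, fun i v => ?_⟩
    simp only [Function.update_of_ne (Ne.symm h1), Function.update_of_ne (Ne.symm h2), hi₀]
    split_ifs
    · rfl
    · rw [mul_zero]

theorem PairM.perm {P : Finset A} {F : (A → V) → K} (h : PairM Ω π P F) (τ : Equiv.Perm A) :
    PairM Ω π (P.map τ.toEmbedding) (fun v => F (v ∘ τ)) := by
  induction h with
  | one => exact PairM.one
  | @mul P F a a' i₁ hne ha ha' hF ih =>
    rw [Finset.map_insert, Finset.map_insert]
    exact PairM.mul (τ a) (τ a') i₁ (fun h => hne (τ.injective h))
      (by simpa using ha) (by simpa using ha') ih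

theorem PairM.swap {P : Finset A} {F : (A → V) → K} (h : PairM Ω π P F) {a a' : A}
    (ha : a ∈ P) (ha' : a' ∈ P) : PairM Ω π P (fun v => F (v ∘ Equiv.swap a a')) := by
  have := h.perm (Equiv.swap a a')
  rwa [map_swap ha ha'] at this

/-- The span of the products of pairings. -/
def SM (Ω : LinearMap.BilinForm K V) (π : C → Module.End K V) (P : Finset A) :
    Submodule K ((A → V) → K) :=
  Submodule.span K {F | PairM Ω π P F}

theorem SM_pml {P : Finset A} {F : (A → V) → K} (h : F ∈ SM Ω π P) : PML K P F := by
  unfold SM at h
  induction h using Submodule.span_induction with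
  | mem x hx => exact PairM.pml hx
  | zero => exact PML.zero' P
  | add x y _ _ hx hy => exact hx.add' hy
  | smul c x _ hx => exact hx.smul' c

theorem SM_mul {P : Finset A} {F : (A → V) → K} (h : F ∈ SM Ω π P) {a a' : A} (c : C)
    (hne : a ≠ a') (ha : a ∉ P) (ha' : a' ∉ P) :
    (fun v => Ω (π c (v a)) (v a') * F v) ∈ SM Ω π (insert a (insert a' P)) := by
  unfold SM at h
  induction h using Submodule.span_induction with
  | mem x hx => exact Submodule.subset_span (PairM.mul a a' c hne ha ha' hx)
  | zero =>
    have : (fun v : A → V => Ω (π c (v a)) (v a') * (0 : (A → V) → K) v) = 0 := by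
      funext v; simp
    rw [this]; exact Submodule.zero_mem _
  | add x y _ _ hx hy =>
    have : (fun v : A → V => Ω (π c (v a)) (v a') * (x + y) v)
        = (fun v => Ω (π c (v a)) (v a') * x v) + (fun v => Ω (π c (v a)) (v a') * y v) := by
      funext v; simp only [Pi.add_apply]; ring
    rw [this]; exact Submodule.add_mem _ hx hy
  | smul r x _ hx =>
    have : (fun v : A → V => Ω (π c (v a)) (v a') * (r • x) v)
        = r • (fun v => Ω (π c (v a)) (v a') * x v) := by
      funext v; simp only [Pi.smul_apply, smul_eq_mul]; ring
    rw [this]; exact Submodule.smul_mem _ _ hx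

/-- The operator D on functions (`d c` is the weight of the class `c`). -/
noncomputable def DM (π : C → Module.End K V) (d : C → ℕ) (P : Finset A) (f : (A → V) → K) :
    (A → V) → K := fun v =>
  ∑ a ∈ P, ∑ c, ((d c : K) * f (Function.update v a (π c (v a)))
    + ∑ a' ∈ P.erase a, f (Function.update (Function.update v a (π c (v a'))) a' (π c (v a))))

theorem DM_S (H : Dec Ω π p) (d : C → ℕ) {P : Finset A} {F : (A → V) → K} (h : F ∈ SM Ω π P) :
    DM π d P F ∈ SM Ω π P := by
  unfold SM at h
  induction h using Submodule.span_induction with
  | mem F hF =>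
    have hF' : PairM Ω π P F := hF
    have key1 : ∀ a ∈ P, ∀ i, ∀ G : (A → V) → K, PairM Ω π P G →
        (fun v => G (Function.update v a (π i (v a)))) ∈ SM Ω π P := by
      intro a ha i G hG
      obtain ⟨i₀, hi₀⟩ := hG.label H a ha
      by_cases h : i = i₀
      · have : (fun v => G (Function.update v a (π i (v a)))) = G := by
          funext v; rw [hi₀, if_pos h]
        rw [this]; exact Submodule.subset_span hG
      · have : (fun v => G (Function.update v a (π i (v a)))) = 0 := by
          funext v; rw [hi₀, if_neg h]; rfl
        rw [this]; exact Submodule.zero_mem _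
    have key2 : ∀ a ∈ P, ∀ a' ∈ P.erase a, ∀ i,
        (fun v => F (Function.update (Function.update v a (π i (v a'))) a'
          (π i (v a)))) ∈ SM Ω π P := by
      intro a ha a' ha' i
      have hne : a ≠ a' := (Finset.mem_erase.mp ha').1.symm
      have ha'P := (Finset.mem_erase.mp ha').2
      have hG := hF'.swap ha ha'P
      obtain ⟨i₀, hi₀⟩ := hG.label H a ha
      obtain ⟨i₁, hi₁⟩ := hG.label H a' ha'P
      have e : ∀ v : A → V, Function.update (Function.update v a (π i (v a'))) a'
          (π i (v a)) = (Function.update (Function.update v a (π i (v a))) a'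
            (π i (v a'))) ∘ Equiv.swap a a' := by
        intro v
        funext x
        by_cases h1 : x = a'
        · subst h1
          rw [Function.update_self, Function.comp_apply, Equiv.swap_apply_right,
            Function.update_of_ne hne, Function.update_self]
        · rw [Function.update_of_ne h1]
          by_cases h2 : x = a
          · subst h2
            rw [Function.update_self, Function.comp_apply, Equiv.swap_apply_left, Function.update_self]
          · rw [Function.update_of_ne h2, Function.comp_apply, Equiv.swap_apply_of_ne_of_ne h2 h1,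
              Function.update_of_ne h1, Function.update_of_ne h2]
      have e2 : ∀ v : A → V, F (Function.update (Function.update v a (π i (v a'))) a'
          (π i (v a))) = if i = i₁ then (if i = i₀ then F (v ∘ Equiv.swap a a') else 0) else 0 := by
        intro v
        rw [e v]
        have h3 := hi₁ i (Function.update v a (π i (v a)))
        rw [Function.update_of_ne hne.symm] at h3
        rw [h3, hi₀]
      simp only [e2]
      split_ifs
      · exact Submodule.subset_span hG
      · exact Submodule.zero_mem _
      · exact Submodule.zero_mem _
    have : DM π d P F = ∑ a ∈ P, ∑ i, ((d i : K) •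
        (fun v => F (Function.update v a (π i (v a))))
        + ∑ a' ∈ P.erase a, (fun v => F (Function.update (Function.update v a (π i (v a'))) a'
          (π i (v a))))) := by
      funext v
      simp only [DM, Finset.sum_apply, Pi.add_apply, Pi.smul_apply, smul_eq_mul]
    rw [this]
    refine Submodule.sum_mem _ fun a ha => Submodule.sum_mem _ fun i _ => Submodule.add_mem _ ?_ ?_
    · exact Submodule.smul_mem _ _ (key1 a ha i F hF')
    · exact Submodule.sum_mem _ fun a' ha' => key2 a ha a' ha' i
  | zero =>
    have : DM π d P (0 : (A → V) → K) = 0 := by funext v; simp [DM]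
    rw [this]; exact Submodule.zero_mem _
  | add x y _ _ hx hy =>
    have : DM π d P (x + y) = DM π d P x + DM π d P y := by
      funext v
      simp only [DM, Pi.add_apply, mul_add, Finset.sum_add_distrib]
      ring
    rw [this]; exact Submodule.add_mem _ hx hy
  | smul c x _ hx =>
    have : DM π d P (c • x) = c • DM π d P x := by
      funext v
      simp only [DM, Pi.smul_apply, smul_eq_mul, Finset.mul_sum, mul_add]
      refine Finset.sum_congr rfl fun a _ => Finset.sum_congr rfl fun i _ => ?_
      ring
    rw [this]; exact Submodule.smul_mem _ _ hx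

end Pool.Agent.MFT
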