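import Pool.Agent.Lib_helper24.MF.F2

/-! Mixed first fundamental theorem: the theorem. -/

set_option linter.unusedSectionVars false
set_option linter.unusedSimpArgs false

namespace Pool.Agent.MFT

open Module Finset Pool.Agent.OT

variable {K : Type*} [Field K] [CharZero K]
variable {V : Type*} [AddCommGroup V] [Module K V] [FiniteDimensional K V]
variable {C : Type*} [Fintype C] [DecidableEq C]
variable {A : Type*} [Fintype A] [DecidableEq A]
variable {B : Type*} [Fintype B] [DecidableEq B]
variable {Ω : LinearMap.BilinForm K V} {π : C → Module.End K V} {p : C → C}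

section dual

theorem dsum1 (hω : Ω.Nondegenerate) (e : Basis B K V) (y : V) :
    ∑ b, Ω y (e b) • Ω.dualBasis hω e b = y := by
  have h1 : ∀ b, Ω y (e b) = (Ω.dualBasis hω e).repr y b := by
    intro b; rw [LinearMap.BilinForm.dualBasis_repr_apply]
  simp only [h1]
  exact (Ω.dualBasis hω e).sum_repr y

theorem dpair (hω : Ω.Nondegenerate) (e : Basis B K V) (i j) :
    Ω (Ω.dualBasis hω e i) (e j) = if j = i then 1 else 0 :=
  LinearMap.BilinForm.apply_dualBasis_left hω e i j

theorem dsum2 (hω : Ω.Nondegenerate) (e : Basis B K V) (y : V) :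
    ∑ b, Ω (Ω.dualBasis hω e b) y • e b = y := by
  have h1 : ∀ b, Ω (Ω.dualBasis hω e b) y = e.repr y b := by
    intro b
    conv_lhs => rw [← e.sum_repr y]
    rw [map_sum]
    simp [dpair]
  simp only [h1]
  exact e.sum_repr y

end dual

/-- Contraction. -/
noncomputable def kapM (hω : Ω.Nondegenerate) (e : Basis B K V) (π : C → Module.End K V) (p : C → C)
    (c : C) (a a' : A) (f : (A → V) → K) : (A → V) → K := fun v =>
  ∑ b, f (Function.update (Function.update v a (π c (e b))) a' (π (p c) (Ω.dualBasis hω e b)))

theorem kapM_pml (hω : Ω.Nondegenerate) (e : Basis B K V) (c : C) {a a' : A} (hne : a ≠ a')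
    {P : Finset A} {f : (A → V) → K} (hf : PML K P f) :
    PML K ((P.erase a).erase a') (kapM hω e π p c a a' f) := by
  have comm : ∀ (v : A → V) (a'' : A) (x y z : V), a'' ≠ a → a'' ≠ a' →
      Function.update (Function.update (Function.update v a'' x) a y) a' z
        = Function.update (Function.update (Function.update v a y) a' z) a'' x := by
    intro v a'' x y z h1 h2
    rw [Function.update_comm h1, Function.update_comm h2]
  refine PML.sum Finset.univ fun b _ => ⟨?_, ?_, ?_⟩
  · intro a'' ha'' v x y
    rw [Finset.mem_erase, Finset.mem_erase] at ha''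
    rw [comm _ _ _ _ _ ha''.2.1 ha''.1, comm _ _ _ _ _ ha''.2.1 ha''.1, comm _ _ _ _ _ ha''.2.1 ha''.1,
      hf.add a'' ha''.2.2]
  · intro a'' ha'' v c x
    rw [Finset.mem_erase, Finset.mem_erase] at ha''
    rw [comm _ _ _ _ _ ha''.2.1 ha''.1, comm _ _ _ _ _ ha''.2.1 ha''.1, hf.smul a'' ha''.2.2]
  · intro a'' ha'' v x
    by_cases h1 : a'' = a
    · subst h1; rw [Function.update_idem]
    by_cases h2 : a'' = a'
    · subst h2
      rw [Function.update_comm hne.symm, Function.update_idem]
    have h3 : a'' ∉ P := fun h => ha'' (Finset.mem_erase.mpr ⟨h2, Finset.mem_erase.mpr ⟨h1, h⟩⟩)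
    rw [comm _ _ _ _ _ h1 h2, hf.const a'' h3]

theorem kapM_inv (H : Dec Ω π p) (e : Basis B K V) (c : C) {a a' : A} (hne : a ≠ a')
    {P : Finset A} (ha : a ∈ P) (ha' : a' ∈ P) {f : (A → V) → K} (hf : PML K P f)
    (hI : InvM Ω π P f) : InvM Ω π ((P.erase a).erase a') (kapM H.nd e π p c a a' f) := by
  intro y hy hyc v
  obtain ⟨e', he'⟩ : ∃ e', e' = Ω.dualBasis H.nd e := ⟨_, rfl⟩
  have hyc' : ∀ c w, y (π c w) = π c (y w) := fun c w => LinearMap.congr_fun (hyc c) w
  obtain ⟨u, hu⟩ : ∃ u : _ → (A → V), u = fun b => Function.update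
    (Function.update v a (π c (e b))) a' (π (p c) (e' b)) := ⟨_, rfl⟩
  have comm : ∀ (v : A → V) (a'' : A) (x y z : V), a'' ≠ a → a'' ≠ a' →
      Function.update (Function.update (Function.update v a'' x) a y) a' z
        = Function.update (Function.update (Function.update v a y) a' z) a'' x := by
    intro v a'' x y z h1 h2
    rw [Function.update_comm h1, Function.update_comm h2]
  have h1 : ∑ a'' ∈ (P.erase a).erase a', kapM H.nd e π p c a a' f
      (Function.update v a'' (y (v a'')))
      = ∑ b, ∑ a'' ∈ (P.erase a).erase a', f (Function.update (u b) a'' (y (u b a''))) := by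
    rw [Finset.sum_comm]
    refine Finset.sum_congr rfl fun a'' ha'' => ?_
    rw [Finset.mem_erase, Finset.mem_erase] at ha''
    unfold kapM
    rw [← he']
    refine Finset.sum_congr rfl fun b _ => ?_
    rw [comm _ _ _ _ _ ha''.2.1 ha''.1]
    have : u b a'' = v a'' := by
      rw [hu]
      simp only [Function.update_of_ne ha''.1, Function.update_of_ne ha''.2.1]
    rw [this, hu]
  have ha'2 : a' ∈ P.erase a := Finset.mem_erase.mpr ⟨hne.symm, ha'⟩
  have h2 : ∀ b, ∑ a'' ∈ (P.erase a).erase a', f (Function.update (u b) a'' (y (u b a'')))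
      = -(f (Function.update (u b) a (y (u b a)))
        + f (Function.update (u b) a' (y (u b a')))) := by
    intro b
    have h3 := hI y hy hyc (u b)
    rw [← Finset.add_sum_erase P _ ha, ← Finset.add_sum_erase (P.erase a) _ ha'2] at h3
    linear_combination h3
  have ua : ∀ b, u b a = π c (e b) := by
    intro b; rw [hu]; simp only [Function.update_of_ne hne, Function.update_self]
  have ua' : ∀ b, u b a' = π (p c) (e' b) := by
    intro b; rw [hu]; simp only [Function.update_self]
  rw [h1]
  simp only [h2]
  rw [Finset.sum_neg_distrib, neg_eq_zero, Finset.sum_add_distrib]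
  have g1 : ∀ b Y, Function.update (u b) a Y = Function.update (Function.update v a' (π (p c) (e' b))) a Y := by
    intro b Y
    rw [hu]
    simp only
    rw [Function.update_comm hne, Function.update_idem]
  have g2 : ∀ b Z, Function.update (u b) a' Z = Function.update (Function.update v a (π c (e b))) a' Z := by
    intro b Z
    rw [hu]
    simp only
    rw [Function.update_idem]
  simp only [ua, ua', g1, g2]
  have x1 : ∀ b, f (Function.update (Function.update v a' (π (p c) (e' b))) a (y (π c (e b))))
      = ∑ k, Ω (e' k) (y (e b)) * f (Function.update (Function.update v a' (π (p c) (e' b))) a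
        (π c (e k))) := by
    intro b
    rw [hyc']
    have := dsum2 H.nd e (y (e b))
    rw [← he'] at this
    conv_lhs => rw [← this]
    rw [map_sum]
    simp only [map_smul]
    rw [hf.sum_smul ha]
  have x2 : ∀ b, f (Function.update (Function.update v a (π c (e b))) a' (y (π (p c) (e' b))))
      = ∑ k, Ω (y (e' b)) (e k) * f (Function.update (Function.update v a (π c (e b))) a'
        (π (p c) (e' k))) := by
    intro b
    rw [hyc']
    have := dsum1 H.nd e (y (e' b))
    rw [← he'] at this
    conv_lhs => rw [← this]
    rw [map_sum]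
    simp only [map_smul]
    rw [hf.sum_smul ha']
  simp only [x1, x2]
  rw [add_comm, Finset.sum_comm]
  rw [← Finset.sum_add_distrib]
  refine Finset.sum_eq_zero fun b _ => ?_
  rw [← Finset.sum_add_distrib]
  refine Finset.sum_eq_zero fun k _ => ?_
  rw [hy, Function.update_comm hne]
  ring

/-- The symmetric product attached to the class c. -/
noncomputable def smc (Ω : LinearMap.BilinForm K V) (π : C → Module.End K V) (p : C → C) (c : C)
    (u x : V) : Module.End K V :=
  (Ω (π (p c) u)).smulRight (π c x) + (Ω (π c x)).smulRight (π (p c) u)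

theorem smc_apply (c : C) (u x w : V) :
    smc Ω π p c u x w = Ω (π (p c) u) w • π c x + Ω (π c x) w • π (p c) u := rfl

theorem smc_sk (H : Dec Ω π p) (c : C) (u x : V) : Sk Ω (smc Ω π p c u x) := by
  intro v w
  simp only [smc_apply, map_add, map_smul, LinearMap.add_apply, LinearMap.smul_apply, smul_eq_mul]
  rw [H.alt v (π c x), H.alt v (π (p c) u)]
  ring

theorem smc_comm (H : Dec Ω π p) (c : C) (u x : V) (c' : C) :
    smc Ω π p c u x * π c' = π c' * smc Ω π p c u x := by
  ext w
  rw [Module.End.mul_apply, Module.End.mul_apply, smc_apply, smc_apply, map_add, map_smul, map_smul,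
    H.adj', H.adj', H.idem_apply, H.idem_apply, H.idem_apply, H.idem_apply]
  have e1 : (p c' = p c) ↔ (c' = c) :=
    ⟨fun h => by rw [← H.inv c', h, H.inv], fun h => by rw [h]⟩
  have e2 : (p c' = c) ↔ (c' = p c) :=
    ⟨fun h => by rw [← h, H.inv], fun h => by rw [h, H.inv]⟩
  simp only [e1, e2]
  by_cases h1 : c' = c
  · subst h1
    by_cases h2 : c' = p c'
    · rw [if_pos rfl, if_pos h2, if_pos rfl, if_pos h2, ← h2]
    · rw [if_pos rfl, if_neg h2, if_pos rfl, if_neg h2]
      simp
  · by_cases h2 : c' = p c
    · subst h2
      rw [if_neg h1, if_pos rfl, if_neg h1, if_pos rfl, H.inv]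
      simp
    · rw [if_neg h1, if_neg h2, if_neg h1, if_neg h2]
      simp

/-- The fundamental identity in one position. -/
theorem identM (H : Dec Ω π p) (e : Basis B K V) (cl : B → C)
    (hcl : ∀ b c, π c (e b) = if cl b = c then e b else 0) (c : C)
    {P : Finset A} {a : A} (ha : a ∈ P) {f : (A → V) → K} (hf : PML K P f)
    (hI : InvM Ω π P f) (v : A → V) :
    (((univ.filter (fun b => cl b = c)).card + (if p c = c then 1 else 0) : ℕ) : K)
        * f (Function.update v a (π c (v a)))
    + ∑ a' ∈ P.erase a, f (Function.update (Function.update v a (π c (v a'))) a' (π c (v a)))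
    = ∑ a' ∈ P.erase a, -(Ω (π c (v a)) (v a') * kapM H.nd e π p c a a' f v) := by
  obtain ⟨e', he'⟩ : ∃ e', e' = Ω.dualBasis H.nd e := ⟨_, rfl⟩
  have hd : ∀ b, Ω (π (p c) (e' b)) (π c (e b)) = if cl b = c then 1 else 0 := by
    intro b
    rw [H.adj, H.inv, H.idem_self, hcl]
    split_ifs
    · rw [he', dpair, if_pos rfl]
    · rw [map_zero]
  have s1 : ∀ y, ∑ b, Ω y (e b) • e' b = y := by
    intro y; rw [he']; exact dsum1 H.nd e y
  have s2 : ∀ y, ∑ b, Ω (e' b) y • e b = y := by
    intro y; rw [he']; exact dsum2 H.nd e y
  have h0 : ∑ b, ∑ a' ∈ P, f (Function.update (Function.update v a (π c (e b))) a'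
      (smc Ω π p c (e' b) (v a) ((Function.update v a (π c (e b))) a'))) = 0 :=
    Finset.sum_eq_zero fun b _ => hI _ (smc_sk H c _ _) (smc_comm H c _ _) _
  have h1 : ∀ b, ∑ a' ∈ P, f (Function.update (Function.update v a (π c (e b))) a'
      (smc Ω π p c (e' b) (v a) ((Function.update v a (π c (e b))) a')))
      = ((if cl b = c then 1 else 0) * f (Function.update v a (π c (v a)))
          + Ω (π c (v a)) (π c (e b)) * f (Function.update v a (π (p c) (e' b))))
        + ∑ a' ∈ P.erase a, (Ω (e' b) (π c (v a')) * f (Function.update (Function.update v a'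
            (π c (v a))) a (π c (e b)))
          + Ω (π c (v a)) (v a') * f (Function.update (Function.update v a (π c (e b))) a'
            (π (p c) (e' b)))) := by
    intro b
    rw [← Finset.add_sum_erase P _ ha]
    congr 1
    · rw [Function.update_idem, Function.update_self, smc_apply, hd,
        hf.add a ha, hf.smul a ha, hf.smul a ha]
    · refine Finset.sum_congr rfl fun a' ha' => ?_
      have hne := (Finset.mem_erase.mp ha').1
      have ha'P := (Finset.mem_erase.mp ha').2
      rw [Function.update_of_ne hne, smc_apply, hf.add a' ha'P, hf.smul a' ha'P, hf.smul a' ha'P,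
        Function.update_comm hne.symm, H.adj (p c), H.inv]
  simp only [h1] at h0
  rw [Finset.sum_add_distrib, Finset.sum_add_distrib, ← Finset.sum_mul, Finset.sum_boole,
    Finset.sum_comm] at h0
  have h2 : ∑ b, Ω (π c (v a)) (π c (e b)) * f (Function.update v a (π (p c) (e' b)))
      = (if p c = c then 1 else 0) * f (Function.update v a (π c (v a))) := by
    have h3 : ∀ b, Ω (π c (v a)) (π c (e b)) = if p c = c then Ω (π c (v a)) (e b) else 0 := by
      intro b
      rw [H.adj', H.idem_apply]
      split_ifs with h
      · rw [h]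
      · rw [map_zero, LinearMap.zero_apply]
    simp only [h3]
    split_ifs with h
    · rw [← hf.sum_smul ha, one_mul]
      simp only [← map_smul]
      rw [← map_sum, s1, h, H.idem_self]
    · simp
  rw [h2] at h0
  have h3 : ∀ a' ∈ P.erase a, ∑ b, (Ω (e' b) (π c (v a')) * f (Function.update (Function.update v a'
            (π c (v a))) a (π c (e b)))
          + Ω (π c (v a)) (v a') * f (Function.update (Function.update v a (π c (e b))) a'
            (π (p c) (e' b))))
      = f (Function.update (Function.update v a (π c (v a'))) a' (π c (v a)))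
        + Ω (π c (v a)) (v a') * kapM H.nd e π p c a a' f v := by
    intro a' ha'
    have hne := (Finset.mem_erase.mp ha').1
    rw [Finset.sum_add_distrib]
    congr 1
    · rw [← hf.sum_smul ha]
      simp only [← map_smul]
      rw [← map_sum, s2, H.idem_self, Function.update_comm hne.symm]
    · rw [← Finset.mul_sum, kapM, he']
  rw [Finset.sum_congr rfl h3, Finset.sum_add_distrib] at h0
  rw [Finset.sum_neg_distrib]
  push_cast
  linear_combination h0

theorem ev_DM (_H : Dec Ω π p) (e : Basis B K V) (cl : B → C)
    (hcl : ∀ b c, π c (e b) = if cl b = c then e b else 0)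
    {P : Finset A} {f : (A → V) → K} (hf : PML K P f) (δ : C → ℕ) (β : A → B) :
    DM π (fun c => (univ.filter (fun b => cl b = c)).card + δ c) P f (fun a => e (β a))
      = Dm δ cl P (fun β => f (fun a => e (β a))) β := by
  unfold DM Dm
  refine Finset.sum_congr rfl fun a ha => ?_
  rw [Finset.sum_add_distrib]
  congr 1
  · rw [Finset.sum_eq_single (cl (β a))]
    · rw [hcl, if_pos rfl, Function.update_eq_self]
    · intro i _ hi
      rw [hcl, if_neg (Ne.symm hi), hf.zero ha, mul_zero]
    · intro h; exact absurd (Finset.mem_univ _) h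
  · rw [Finset.sum_comm]
    refine Finset.sum_congr rfl fun a' ha' => ?_
    have hne := (Finset.mem_erase.mp ha').1
    have ha'P := (Finset.mem_erase.mp ha').2
    split_ifs with hc
    · rw [Finset.sum_eq_single (cl (β a))]
      · rw [hcl, hcl, if_pos rfl, if_pos hc.symm]
        congr 1
        funext x
        by_cases h1 : x = a'
        · subst h1
          rw [Function.update_self, Function.comp_apply, Equiv.swap_apply_right]
        · rw [Function.update_of_ne h1]
          by_cases h2 : x = a
          · subst h2
            rw [Function.update_self, Function.comp_apply, Equiv.swap_apply_left]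
          · rw [Function.update_of_ne h2, Function.comp_apply, Equiv.swap_apply_of_ne_of_ne h2 h1]
      · intro i _ hi
        rw [hcl (β a), if_neg (Ne.symm hi), hf.zero ha'P]
      · intro h; exact absurd (Finset.mem_univ _) h
    · refine Finset.sum_eq_zero fun i _ => ?_
      rw [hcl, hcl]
      by_cases h1 : cl (β a) = i
      · have h2 : cl (β a') ≠ i := fun h => hc (h1.trans h.symm)
        rw [if_neg h2, Function.update_comm hne.symm, hf.zero ha]
      · rw [if_neg h1, hf.zero ha'P]

/-- First fundamental theorem: products of symplectic and general linear Lie algebras. -/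
theorem mfft (H : Dec Ω π p) (n : ℕ) :
    ∀ (P : Finset A), P.card = n → ∀ f : (A → V) → K, PML K P f → InvM Ω π P f → f ∈ SM Ω π P := by
  classical
  obtain ⟨e, hcl⟩ := H.basis
  obtain ⟨cl, hcl0⟩ : ∃ cl : (Σ c, Fin (finrank K (LinearMap.range (π c)))) → C, cl = fun b => b.1 :=
    ⟨_, rfl⟩
  have hcl : ∀ b c, π c (e b) = if cl b = c then e b else 0 := by
    intro b c; rw [hcl, hcl0]
  obtain ⟨δ, hδ⟩ : ∃ δ : C → ℕ, δ = fun c => if p c = c then 1 else 0 := ⟨_, rfl⟩
  obtain ⟨d, hd⟩ : ∃ d : C → ℕ, d = fun c => (univ.filter (fun b => cl b = c)).card + δ c := ⟨_, rfl⟩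
  induction n using Nat.strong_induction_on with
  | _ n ih =>
  intro P hPn f hf hI
  rcases P.eq_empty_or_nonempty with rfl | hP
  · -- constant
    have : f = f 0 • (fun _ => 1) := by
      funext v
      rw [Pi.smul_apply, smul_eq_mul, mul_one]
      exact const_all (fun a v x => hf.const a (Finset.notMem_empty a) v x) v 0
    rw [this]
    exact Submodule.smul_mem _ _ (Submodule.subset_span PairM.one)
  -- the right side
  have hD : DM π d P f ∈ SM Ω π P := by
    have e1 : DM π d P f = ∑ a ∈ P, ∑ c, ∑ a' ∈ P.erase a, -(fun v : A → V =>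
        Ω (π c (v a)) (v a') * kapM H.nd e π p c a a' f v) := by
      funext v
      simp only [DM, Finset.sum_apply, Pi.neg_apply]
      refine Finset.sum_congr rfl fun a ha => Finset.sum_congr rfl fun c _ => ?_
      rw [← identM H e cl hcl c ha hf hI v, hd, hδ]
    rw [e1]
    refine Submodule.sum_mem _ fun a ha => Submodule.sum_mem _ fun c _ => Submodule.sum_mem _
      fun a' ha' => Submodule.neg_mem _ ?_
    have hne := (Finset.mem_erase.mp ha').1
    have ha'P := (Finset.mem_erase.mp ha').2
    have hk := ih ((P.erase a).erase a').card (by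
      rw [← hPn]
      exact lt_of_lt_of_le (Finset.card_erase_lt_of_mem ha') (Finset.card_erase_le)) _ rfl _
      (kapM_pml H.nd e c hne.symm hf) (kapM_inv H e c hne.symm ha ha'P hf hI)
    have := SM_mul hk c hne.symm (by simp) (by simp)
    have hins : insert a (insert a' ((P.erase a).erase a')) = P := by
      rw [Finset.insert_erase ha', Finset.insert_erase ha]
    rwa [hins] at this
  by_cases hB : Nonempty (Σ c, Fin (finrank K (LinearMap.range (π c))))
  · -- coordinates
    let ev : ((A → V) → K) →ₗ[K] ((A → Σ c, Fin (finrank K (LinearMap.range (π c)))) → K) :=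
      { toFun := fun f β => f (fun a => e (β a))
        map_add' := fun _ _ => rfl
        map_smul' := fun _ _ => rfl }
    let D : ((A → Σ c, Fin (finrank K (LinearMap.range (π c)))) → K) →ₗ[K]
        ((A → Σ c, Fin (finrank K (LinearMap.range (π c)))) → K) :=
      { toFun := fun F => Dm δ cl P F
        map_add' := by
          intro F G
          funext β
          simp only [Dm, Pi.add_apply, mul_add, Finset.sum_add_distrib]
          have : ∀ a, (∑ a' ∈ P.erase a, if cl (β a) = cl (β a') then F (β ∘ Equiv.swap a a')
              + G (β ∘ Equiv.swap a a') else 0)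
              = (∑ a' ∈ P.erase a, if cl (β a) = cl (β a') then F (β ∘ Equiv.swap a a') else 0)
              + (∑ a' ∈ P.erase a, if cl (β a) = cl (β a') then G (β ∘ Equiv.swap a a') else 0) := by
            intro a
            rw [← Finset.sum_add_distrib]
            refine Finset.sum_congr rfl fun a' _ => ?_
            split_ifs <;> simp
          simp only [this, Finset.sum_add_distrib]
          ring
        map_smul' := by
          intro c F
          funext β
          simp only [Dm, Pi.smul_apply, smul_eq_mul, RingHom.id_apply, Finset.mul_sum, mul_add]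
          refine Finset.sum_congr rfl fun a _ => ?_
          congr 1
          · ring
          · refine Finset.sum_congr rfl fun a' _ => ?_
            split_ifs <;> simp }
    have hDinj : ∀ F, D F = 0 → F = 0 := fun F hF =>
      funext (Dm_inj δ cl P hP F (fun β => congrFun hF β))
    have hev : ∀ g, PML K P g → ev (DM π d P g) = D (ev g) := by
      intro g hg
      funext β
      rw [hd]
      exact ev_DM H e cl hcl hg δ β
    -- D restricts to a bijection of the image of S
    let S' := (SM Ω π P).map ev
    have hS' : ∀ F ∈ S', D F ∈ S' := by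
      rintro _ ⟨g, hg, rfl⟩
      rw [← hev g (SM_pml hg)]
      exact Submodule.mem_map_of_mem (DM_S H d hg)
    have hinj : Function.Injective (D.restrict hS') := by
      rw [← LinearMap.ker_eq_bot, LinearMap.ker_eq_bot']
      rintro ⟨F, hF⟩ h
      exact Subtype.ext (hDinj F (congrArg Subtype.val h))
    have hsurj := LinearMap.surjective_of_injective hinj
    obtain ⟨⟨_, ⟨g, hg, rfl⟩⟩, hgD⟩ := hsurj ⟨D (ev f), by
      rw [← hev f hf]; exact Submodule.mem_map_of_mem hD⟩
    have h1 : D (ev g) = D (ev f) := congrArg Subtype.val hgD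
    have h2 : ev g = ev f := by
      have := hDinj (ev g - ev f) (by rw [map_sub, h1, sub_self])
      exact sub_eq_zero.mp this
    have h3 : g = f := PML.ext e (SM_pml hg) hf (fun β => congrFun h2 β)
    rw [← h3]; exact hg
  · -- the space is zero
    have hz : ∀ v : V, v = 0 := by
      intro v
      have : IsEmpty (Σ c, Fin (finrank K (LinearMap.range (π c)))) := not_nonempty_iff.mp hB
      have := e.sum_repr v
      rw [← this]
      simp
    obtain ⟨a, ha⟩ := hP
    have : f = 0 := by
      funext v
      have h1 := hf.zero ha v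
      rw [← hz (v a), Function.update_eq_self] at h1
      exact h1
    rw [this]
    exact Submodule.zero_mem _

end Pool.Agent.MFT
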