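import Pool.Agent.Lib_helper24.MF.F3
import Pool.Agent.Lib_helper48.OT.Wedge

/-! Mixed first fundamental theorem: alternating forms on powers. -/

set_option linter.unusedSectionVars false
set_option linter.unusedSimpArgs false

namespace Pool.Agent.MFT

open Module Finset Equiv Pool.Agent.OT

variable {K : Type*} [Field K] [CharZero K]
variable {V : Type*} [AddCommGroup V] [Module K V] [FiniteDimensional K V]
variable {C : Type*} [Fintype C] [DecidableEq C]
variable {Ω : LinearMap.BilinForm K V} {π : C → Module.End K V} {p : C → C}

theorem PairM.explicit {A : Type*} [Fintype A] [DecidableEq A] {P : Finset A}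
    {F : (A → V) → K} (h : PairM Ω π P F) :
    ∃ (k : ℕ) (l r : Fin k → A) (c : Fin k → C), Function.Injective (Sum.elim l r) ∧
      (∀ a, a ∈ P ↔ ∃ s, Sum.elim l r s = a) ∧
      F = fun v => ∏ t, Ω (π (c t) (v (l t))) (v (r t)) := by
  induction h with
  | one =>
    refine ⟨0, Fin.elim0, Fin.elim0, Fin.elim0, ?_, ?_, ?_⟩
    · rintro (x | x) <;> exact x.elim0
    · intro a
      constructor
      · intro h; exact absurd h (Finset.notMem_empty a)
      · rintro ⟨(x | x), _⟩ <;> exact x.elim0
    · funext v; simp
  | @mul P F a a' i hne ha ha' hF ih =>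
    obtain ⟨k, l, r, c, hinj, hmem, rfl⟩ := ih
    have hl : ∀ t, l t ∈ P := fun t => (hmem _).mpr ⟨Sum.inl t, rfl⟩
    have hr : ∀ t, r t ∈ P := fun t => (hmem _).mpr ⟨Sum.inr t, rfl⟩
    refine ⟨k + 1, Fin.cons a l, Fin.cons a' r, Fin.cons i c, ?_, ?_, ?_⟩
    · have hal : ∀ t, l t ≠ a := fun t h => ha (h ▸ hl t)
      have har : ∀ t, r t ≠ a := fun t h => ha (h ▸ hr t)
      have ha'l : ∀ t, l t ≠ a' := fun t h => ha' (h ▸ hl t)
      have ha'r : ∀ t, r t ≠ a' := fun t h => ha' (h ▸ hr t)
      rintro (x | x) (y | y) h
      · induction x using Fin.cases with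
        | zero =>
          induction y using Fin.cases with
          | zero => rfl
          | succ y =>
            simp only [Sum.elim_inl, Fin.cons_zero, Fin.cons_succ] at h
            exact absurd h.symm (hal y)
        | succ x =>
          induction y using Fin.cases with
          | zero =>
            simp only [Sum.elim_inl, Fin.cons_zero, Fin.cons_succ] at h
            exact absurd h (hal x)
          | succ y =>
            simp only [Sum.elim_inl, Fin.cons_succ] at h
            have := hinj (a₁ := Sum.inl x) (a₂ := Sum.inl y) h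
            rw [Sum.inl.inj this]
      · induction x using Fin.cases with
        | zero =>
          induction y using Fin.cases with
          | zero =>
            simp only [Sum.elim_inl, Sum.elim_inr, Fin.cons_zero] at h
            exact absurd h hne
          | succ y =>
            simp only [Sum.elim_inl, Sum.elim_inr, Fin.cons_zero, Fin.cons_succ] at h
            exact absurd h.symm (har y)
        | succ x =>
          induction y using Fin.cases with
          | zero =>
            simp only [Sum.elim_inl, Sum.elim_inr, Fin.cons_zero, Fin.cons_succ] at h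
            exact absurd h (ha'l x)
          | succ y =>
            simp only [Sum.elim_inl, Sum.elim_inr, Fin.cons_succ] at h
            have := hinj (a₁ := Sum.inl x) (a₂ := Sum.inr y) h
            exact absurd this (by simp)
      · induction x using Fin.cases with
        | zero =>
          induction y using Fin.cases with
          | zero =>
            simp only [Sum.elim_inl, Sum.elim_inr, Fin.cons_zero] at h
            exact absurd h.symm hne
          | succ y =>
            simp only [Sum.elim_inl, Sum.elim_inr, Fin.cons_zero, Fin.cons_succ] at h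
            exact absurd h.symm (ha'l y)
        | succ x =>
          induction y using Fin.cases with
          | zero =>
            simp only [Sum.elim_inl, Sum.elim_inr, Fin.cons_zero, Fin.cons_succ] at h
            exact absurd h (har x)
          | succ y =>
            simp only [Sum.elim_inl, Sum.elim_inr, Fin.cons_succ] at h
            have := hinj (a₁ := Sum.inr x) (a₂ := Sum.inl y) h
            exact absurd this (by simp)
      · induction x using Fin.cases with
        | zero =>
          induction y using Fin.cases with
          | zero => rfl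
          | succ y =>
            simp only [Sum.elim_inr, Fin.cons_zero, Fin.cons_succ] at h
            exact absurd h.symm (ha'r y)
        | succ x =>
          induction y using Fin.cases with
          | zero =>
            simp only [Sum.elim_inr, Fin.cons_zero, Fin.cons_succ] at h
            exact absurd h (ha'r x)
          | succ y =>
            simp only [Sum.elim_inr, Fin.cons_succ] at h
            have := hinj (a₁ := Sum.inr x) (a₂ := Sum.inr y) h
            rw [Sum.inr.inj this]
    · intro b
      constructor
      · intro hb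
        rcases Finset.mem_insert.mp hb with rfl | hb
        · exact ⟨Sum.inl 0, rfl⟩
        rcases Finset.mem_insert.mp hb with rfl | hb
        · exact ⟨Sum.inr 0, rfl⟩
        obtain ⟨(t | t), ht⟩ := (hmem b).mp hb
        · exact ⟨Sum.inl t.succ, ht⟩
        · exact ⟨Sum.inr t.succ, ht⟩
      · rintro ⟨(t | t), ht⟩
        · induction t using Fin.cases with
          | zero =>
            simp only [Sum.elim_inl, Fin.cons_zero] at ht
            rw [← ht]; exact Finset.mem_insert_self _ _
          | succ t =>
            simp only [Sum.elim_inl, Fin.cons_succ] at ht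
            rw [← ht]; exact Finset.mem_insert_of_mem (Finset.mem_insert_of_mem (hl t))
        · induction t using Fin.cases with
          | zero =>
            simp only [Sum.elim_inr, Fin.cons_zero] at ht
            rw [← ht]; exact Finset.mem_insert_of_mem (Finset.mem_insert_self _ _)
          | succ t =>
            simp only [Sum.elim_inr, Fin.cons_succ] at ht
            rw [← ht]; exact Finset.mem_insert_of_mem (Finset.mem_insert_of_mem (hr t))
    · funext v
      rw [Fin.prod_univ_succ]
      rfl

/-- Multilinear forms on a power. -/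
theorem part2M (H : Dec Ω π p) (n m : ℕ) (f : MultilinearMap K (fun _ : Fin m => Fin n → V) K)
    (hf : ∀ y : Module.End K V, Sk Ω y → (∀ c, y * π c = π c * y) → ∀ v : Fin m → Fin n → V,
      ∑ a, f (Function.update v a (fun j => y (v a j))) = 0) :
    (fun v => f v) ∈ Submodule.span K {G : (Fin m → Fin n → V) → K |
      ∃ (k : ℕ) (e : Fin k ⊕ Fin k ≃ Fin m) (c : Fin k → C) (j : Fin m → Fin n),
        G = fun v => ∏ r, Ω (π (c r) (v (e (Sum.inl r)) (j (e (Sum.inl r)))))
          (v (e (Sum.inr r)) (j (e (Sum.inr r))))} := by
  classical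
  let fj : (Fin m → Fin n) → MultilinearMap K (fun _ : Fin m => V) K :=
    fun j => f.compLinearMap (fun a => LinearMap.single K (fun _ : Fin n => V) (j a))
  have fja : ∀ j v, fj j v = f (fun a => Pi.single (j a) (v a)) := fun j v => rfl
  have hsum : (fun v => f v) = ∑ j : Fin m → Fin n, (fun v : Fin m → Fin n → V =>
      fj j (fun a => v a (j a))) := by
    funext v
    rw [Finset.sum_apply]
    have h1 : (fun a => ∑ b, Pi.single b (v a b)) = v := by
      funext a
      exact Finset.univ_sum_single (v a)
    conv_lhs => rw [← h1]
    rw [MultilinearMap.map_sum]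
    rfl
  rw [hsum]
  refine Submodule.sum_mem _ fun j _ => ?_
  have hS : (fun v => fj j v) ∈ SM Ω π (Finset.univ : Finset (Fin m)) := by
    refine mfft H _ Finset.univ rfl _ ⟨?_, ?_, ?_⟩ ?_
    · intro a _ v x y
      exact (fj j).map_update_add v a x y
    · intro a _ v c x
      rw [(fj j).map_update_smul, smul_eq_mul]
    · intro a ha; exact absurd (Finset.mem_univ a) ha
    · intro y hy hyc v
      have h1 := hf y hy hyc (fun a => Pi.single (j a) (v a))
      rw [← h1]
      refine Finset.sum_congr rfl fun a _ => ?_
      show (fj j) (Function.update v a (y (v a))) = _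
      rw [fja]
      congr 1
      funext b
      by_cases hb : b = a
      · subst hb
        rw [Function.update_self, Function.update_self]
        funext t
        by_cases ht : t = j b
        · subst ht
          rw [Pi.single_eq_same, Pi.single_eq_same]
        · rw [Pi.single_eq_of_ne ht, Pi.single_eq_of_ne ht, map_zero]
      · rw [Function.update_of_ne hb, Function.update_of_ne hb]
  -- transport
  let T : ((Fin m → V) → K) →ₗ[K] ((Fin m → Fin n → V) → K) :=
    { toFun := fun G v => G (fun a => v a (j a))
      map_add' := fun _ _ => rfl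
      map_smul' := fun _ _ => rfl }
  have hT : (fun v : Fin m → Fin n → V => fj j (fun a => v a (j a))) = T (fun v => fj j v) := rfl
  rw [hT]
  have hle : SM Ω π (Finset.univ : Finset (Fin m)) ≤ (Submodule.span K {G : (Fin m → Fin n → V) → K |
      ∃ (k : ℕ) (e : Fin k ⊕ Fin k ≃ Fin m) (c : Fin k → C) (j : Fin m → Fin n),
        G = fun v => ∏ r, Ω (π (c r) (v (e (Sum.inl r)) (j (e (Sum.inl r)))))
          (v (e (Sum.inr r)) (j (e (Sum.inr r))))}).comap T := by
    unfold SM
    rw [Submodule.span_le]
    intro G hG
    have hG' : PairM Ω π Finset.univ G := hG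
    obtain ⟨k, l, r, c, hinj, hmem, rfl⟩ := hG'.explicit
    apply Submodule.subset_span
    refine ⟨k, Equiv.ofBijective (Sum.elim l r) ⟨hinj, fun a => (hmem a).mp (Finset.mem_univ a)⟩, c, j, ?_⟩
    rfl
  exact hle hS

/-- Alternating forms on a power. -/
theorem part3M (H : Dec Ω π p) (n m : ℕ) (f : (Fin n → V) [⋀^Fin m]→ₗ[K] K)
    (hf : ∀ y : Module.End K V, Sk Ω y → (∀ c, y * π c = π c * y) → ∀ v : Fin m → Fin n → V,
      ∑ a, f (Function.update v a (fun j => y (v a j))) = 0) :
    (fun v => f v) ∈ Submodule.span K {G : (Fin m → Fin n → V) → K |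
      ∃ (q : ℕ) (e : Fin q ⊕ Fin q ≃ Fin m) (B : Fin q → LinearMap.BilinForm K (Fin n → V)),
        (∀ r, (B r).IsAlt ∧ ∀ y : Module.End K V, Sk Ω y → (∀ c, y * π c = π c * y) →
          ∀ v w : Fin n → V, B r (fun j => y (v j)) w + B r v (fun j => y (w j)) = 0) ∧
        G = fun v => ∑ σ : Perm (Fin m), ((Perm.sign σ : ℤ) : K) *
          ∏ r, B r (v (σ (e (Sum.inl r)))) (v (σ (e (Sum.inr r))))} := by
  classical
  have h2 := part2M H n m f.toMultilinearMap hf
  -- antisymmetrisation
  let A : ((Fin m → Fin n → V) → K) →ₗ[K] ((Fin m → Fin n → V) → K) :=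
    { toFun := fun G v => ∑ σ : Perm (Fin m), ((Perm.sign σ : ℤ) : K) * G (fun a => v (σ a))
      map_add' := by
        intro G H
        funext v
        simp only [Pi.add_apply, mul_add, Finset.sum_add_distrib]
      map_smul' := by
        intro c G
        funext v
        simp only [Pi.smul_apply, smul_eq_mul, RingHom.id_apply, Finset.mul_sum]
        refine Finset.sum_congr rfl fun σ _ => ?_
        ring }
  have hA : A (fun v => f v) = (m.factorial : K) • (fun v => f v) := by
    funext v
    show ∑ σ : Perm (Fin m), ((Perm.sign σ : ℤ) : K) * f (fun a => v (σ a)) = (m.factorial : K) * f v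
    have h3 : ∀ σ : Perm (Fin m), ((Perm.sign σ : ℤ) : K) * f (fun a => v (σ a)) = f v := by
      intro σ
      have h4 : f (fun a => v (σ a)) = Perm.sign σ • f v := f.map_perm v σ
      rw [h4, Units.smul_def, zsmul_eq_mul, ← mul_assoc, ← Int.cast_mul]
      have h5 : ((Perm.sign σ : ℤ) * (Perm.sign σ : ℤ)) = 1 := by
        rw [← Units.val_mul, Int.units_mul_self, Units.val_one]
      rw [h5, Int.cast_one, one_mul]
    rw [Finset.sum_congr rfl fun σ _ => h3 σ, Finset.sum_const, Finset.card_univ, Fintype.card_perm,
      Fintype.card_fin, nsmul_eq_mul]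
  have hm : (m.factorial : K) ≠ 0 := by exact_mod_cast m.factorial_ne_zero
  have h6 : (fun v => f v) = (m.factorial : K)⁻¹ • A (fun v => f v) := by
    rw [hA, smul_smul, inv_mul_cancel₀ hm, one_smul]
  rw [h6]
  refine Submodule.smul_mem _ _ ?_
  have hle : Submodule.span K {G : (Fin m → Fin n → V) → K |
      ∃ (k : ℕ) (e : Fin k ⊕ Fin k ≃ Fin m) (c : Fin k → C) (j : Fin m → Fin n),
        G = fun v => ∏ r, Ω (π (c r) (v (e (Sum.inl r)) (j (e (Sum.inl r)))))
          (v (e (Sum.inr r)) (j (e (Sum.inr r))))} ≤
      (Submodule.span K {G : (Fin m → Fin n → V) → K |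
      ∃ (q : ℕ) (e : Fin q ⊕ Fin q ≃ Fin m) (B : Fin q → LinearMap.BilinForm K (Fin n → V)),
        (∀ r, (B r).IsAlt ∧ ∀ y : Module.End K V, Sk Ω y → (∀ c, y * π c = π c * y) →
          ∀ v w : Fin n → V, B r (fun j => y (v j)) w + B r v (fun j => y (w j)) = 0) ∧
        G = fun v => ∑ σ : Perm (Fin m), ((Perm.sign σ : ℤ) : K) *
          ∏ r, B r (v (σ (e (Sum.inl r)))) (v (σ (e (Sum.inr r))))}).comap A := by
    rw [Submodule.span_le]
    rintro G ⟨k, e, c, j, rfl⟩
    apply Submodule.subset_span
    let P : Fin n → (Fin n → V) →ₗ[K] V := fun a => LinearMap.proj a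
    have Pa : ∀ a v, P a v = v a := fun _ _ => rfl
    let b : Fin k → LinearMap.BilinForm K (Fin n → V) := fun r =>
      Ω.comp (π (c r) ∘ₗ P (j (e (Sum.inl r)))) (P (j (e (Sum.inr r))))
    have ba : ∀ r v w, b r v w = Ω (π (c r) (v (j (e (Sum.inl r))))) (w (j (e (Sum.inr r)))) :=
      fun _ _ _ => rfl
    have binv : ∀ r (y : Module.End K V), Sk Ω y → (∀ c, y * π c = π c * y) → ∀ v w,
        b r (fun j => y (v j)) w + b r v (fun j => y (w j)) = 0 := by
      intro r y hy hyc v w
      rw [ba, ba]
      have h1 : π (c r) (y (v (j (e (Sum.inl r))))) = y (π (c r) (v (j (e (Sum.inl r))))) :=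
        (LinearMap.congr_fun (hyc (c r)) _).symm
      rw [h1, hy]
      ring
    refine ⟨k, e, fun r => altp (b r), fun r => ⟨altp_alt _, ?_⟩, ?_⟩
    · intro y hy hyc v w
      have e1 : ∀ v w, altp (b r) v w = (1/2 : K) * (b r v w - b r w v) := fun _ _ => rfl
      rw [e1, e1]
      have h7 := binv r y hy hyc v w
      have h8 := binv r y hy hyc w v
      linear_combination (1/2 : K) * h7 - (1/2 : K) * h8
    · funext v
      have h9 := Wd_all e b v
      unfold Wd at h9
      rw [h9]
      rfl
  exact hle h2

end Pool.Agent.MFT
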