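import Pool.Agent.Lib_helper24.MF.F4

/-! Mixed first fundamental theorem: symplectic spaces and pairs of dual spaces. -/

set_option linter.unusedSectionVars false
set_option linter.unusedSimpArgs false

namespace Pool.Agent.MFT

open Module Finset Equiv Pool.Agent.OT

variable {K : Type*} [Field K]
variable {ι κ : Type*} [Fintype ι] [Fintype κ]
variable {W : ι → Type*} [∀ i, AddCommGroup (W i)] [∀ i, Module K (W i)]
variable {U : κ → Type*} [∀ j, AddCommGroup (U j)] [∀ j, Module K (U j)]

/-- The space: a sum of symplectic spaces and of pairs of dual spaces. -/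
abbrev MSp (K : Type*) [Field K] {ι κ : Type*} (W : ι → Type*) [∀ i, AddCommGroup (W i)]
    [∀ i, Module K (W i)] (U : κ → Type*) [∀ j, AddCommGroup (U j)] [∀ j, Module K (U j)] : Type _ :=
  (∀ i, W i) × (∀ j, U j × Module.Dual K (U j))

theorem msp_ext {v w : MSp K W U} (h1 : ∀ i, v.1 i = w.1 i) (h2 : ∀ j, (v.2 j).1 = (w.2 j).1)
    (h3 : ∀ j, (v.2 j).2 = (w.2 j).2) : v = w :=
  Prod.ext (funext h1) (funext fun j => Prod.ext (h2 j) (h3 j))

/-- The total form. -/
def tot (ω : ∀ i, LinearMap.BilinForm K (W i)) : LinearMap.BilinForm K (MSp K W U) :=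
  LinearMap.mk₂ K (fun v w => ∑ i, ω i (v.1 i) (w.1 i)
      + ∑ j, ((w.2 j).2 (v.2 j).1 - (v.2 j).2 (w.2 j).1))
    (by
      intro v v' w
      simp only [Prod.fst_add, Prod.snd_add, Pi.add_apply, map_add, LinearMap.add_apply,
        Finset.sum_add_distrib, Finset.sum_sub_distrib]
      ring)
    (by
      intro c v w
      simp only [Prod.smul_fst, Prod.smul_snd, Pi.smul_apply, map_smul, LinearMap.smul_apply,
        smul_eq_mul, mul_add, Finset.mul_sum, mul_sub])
    (by
      intro v w w'
      simp only [Prod.fst_add, Prod.snd_add, Pi.add_apply, map_add, LinearMap.add_apply,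
        Finset.sum_add_distrib, Finset.sum_sub_distrib]
      ring)
    (by
      intro c v w
      simp only [Prod.smul_fst, Prod.smul_snd, Pi.smul_apply, map_smul, LinearMap.smul_apply,
        smul_eq_mul, mul_add, Finset.mul_sum, mul_sub])

theorem tot_apply (ω : ∀ i, LinearMap.BilinForm K (W i)) (v w : MSp K W U) :
    tot ω v w = ∑ i, ω i (v.1 i) (w.1 i) + ∑ j, ((w.2 j).2 (v.2 j).1 - (v.2 j).2 (w.2 j).1) := rfl

theorem tot_sk {ω : ∀ i, LinearMap.BilinForm K (W i)} (halt : ∀ i v w, ω i v w = - ω i w v)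
    (v w : MSp K W U) : tot ω v w = - tot ω w v := by
  rw [tot_apply, tot_apply, neg_add, ← Finset.sum_neg_distrib, ← Finset.sum_neg_distrib]
  congr 1
  · exact Finset.sum_congr rfl fun i _ => halt i _ _
  · exact Finset.sum_congr rfl fun j _ => by ring

variable [DecidableEq ι] [DecidableEq κ]

/-- The idempotents. -/
def prj (K : Type*) [Field K] {ι κ : Type*} [Fintype ι] [DecidableEq ι] [Fintype κ]
    [DecidableEq κ] (W : ι → Type*) [∀ i, AddCommGroup (W i)]
    [∀ i, Module K (W i)] (U : κ → Type*) [∀ j, AddCommGroup (U j)] [∀ j, Module K (U j)]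
    (c : ι ⊕ κ × Bool) : Module.End K (MSp K W U) where
  toFun v := (fun i => if c = Sum.inl i then v.1 i else 0,
    fun j => (if c = Sum.inr (j, false) then (v.2 j).1 else 0,
      if c = Sum.inr (j, true) then (v.2 j).2 else 0))
  map_add' v w := by
    refine msp_ext ?_ ?_ ?_ <;> intro i <;>
      simp only [Prod.fst_add, Prod.snd_add, Pi.add_apply] <;> split_ifs <;> simp
  map_smul' r v := by
    refine msp_ext ?_ ?_ ?_ <;> intro i <;>
      simp only [Prod.smul_fst, Prod.smul_snd, Pi.smul_apply, RingHom.id_apply] <;>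
      split_ifs <;> simp

/-- The partner of a class. -/
def prt {ι κ : Type*} : ι ⊕ κ × Bool → ι ⊕ κ × Bool
  | Sum.inl i => Sum.inl i
  | Sum.inr (j, b) => Sum.inr (j, !b)

theorem prj_fst (c : ι ⊕ κ × Bool) (v : MSp K W U) (i : ι) :
    (prj K W U c v).1 i = if c = Sum.inl i then v.1 i else 0 := rfl

theorem prj_snd1 (c : ι ⊕ κ × Bool) (v : MSp K W U) (j : κ) :
    ((prj K W U c v).2 j).1 = if c = Sum.inr (j, false) then (v.2 j).1 else 0 := rfl

theorem prj_snd2 (c : ι ⊕ κ × Bool) (v : MSp K W U) (j : κ) :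
    ((prj K W U c v).2 j).2 = if c = Sum.inr (j, true) then (v.2 j).2 else 0 := rfl

theorem prt_inl (c : ι ⊕ κ × Bool) (i : ι) : prt c = Sum.inl i ↔ c = Sum.inl i := by
  rcases c with i' | ⟨j, b⟩ <;> simp [prt]

theorem prt_false (c : ι ⊕ κ × Bool) (j : κ) : prt c = Sum.inr (j, false) ↔ c = Sum.inr (j, true) := by
  rcases c with i' | ⟨j', b⟩ <;> simp [prt]

theorem prt_true (c : ι ⊕ κ × Bool) (j : κ) : prt c = Sum.inr (j, true) ↔ c = Sum.inr (j, false) := by
  rcases c with i' | ⟨j', b⟩ <;> simp [prt]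

/-- The embeddings. -/
def inW (i : ι) (w : W i) : MSp K W U := (Pi.single i w, 0)

def inU (j : κ) (u : U j) : MSp K W U := (0, Pi.single j (u, 0))

def inD (j : κ) (φ : Module.Dual K (U j)) : MSp K W U := (0, Pi.single j (0, φ))

theorem inW_self (i : ι) (w : W i) : (inW (K := K) (U := U) i w).1 i = w := Pi.single_eq_same _ _

theorem inU_self (j : κ) (u : U j) : ((inU (K := K) (W := W) j u).2 j).1 = u := by
  unfold inU
  show ((Pi.single j (u, 0) : ∀ j, U j × Module.Dual K (U j)) j).1 = u
  rw [Pi.single_eq_same]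

theorem tot_inW (ω : ∀ i, LinearMap.BilinForm K (W i)) (v : MSp K W U) (i : ι) (w : W i) :
    tot ω v (inW i w) = ω i (v.1 i) w := by
  rw [tot_apply]
  have h1 : ∑ j, (((inW (K := K) (U := U) i w).2 j).2 (v.2 j).1
      - (v.2 j).2 ((inW (K := K) (U := U) i w).2 j).1) = 0 := by
    refine Finset.sum_eq_zero fun j _ => ?_
    show (0 : Module.Dual K (U j)) (v.2 j).1 - (v.2 j).2 0 = 0
    rw [LinearMap.zero_apply, map_zero, sub_zero]
  rw [h1, add_zero, Finset.sum_eq_single i]
  · rw [inW_self]
  · intro b _ hb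
    show ω b (v.1 b) ((Pi.single i w : ∀ i, W i) b) = 0
    rw [Pi.single_eq_of_ne hb, map_zero]
  · intro h; exact absurd (Finset.mem_univ _) h

theorem tot_inU (ω : ∀ i, LinearMap.BilinForm K (W i)) (v : MSp K W U) (j : κ) (u : U j) :
    tot ω v (inU j u) = - (v.2 j).2 u := by
  rw [tot_apply]
  have h1 : ∑ i, ω i (v.1 i) ((inU (K := K) (W := W) j u).1 i) = 0 := by
    refine Finset.sum_eq_zero fun i _ => ?_
    show ω i (v.1 i) 0 = 0
    rw [map_zero]
  rw [h1, zero_add, Finset.sum_eq_single j]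
  · show ((Pi.single j (u, 0) : ∀ j, U j × Module.Dual K (U j)) j).2 (v.2 j).1
      - (v.2 j).2 ((Pi.single j (u, 0) : ∀ j, U j × Module.Dual K (U j)) j).1 = _
    rw [Pi.single_eq_same]
    simp
  · intro b _ hb
    show ((Pi.single j (u, 0) : ∀ j, U j × Module.Dual K (U j)) b).2 (v.2 b).1
      - (v.2 b).2 ((Pi.single j (u, 0) : ∀ j, U j × Module.Dual K (U j)) b).1 = 0
    rw [Pi.single_eq_of_ne hb]
    simp
  · intro h; exact absurd (Finset.mem_univ _) h

theorem tot_inD (ω : ∀ i, LinearMap.BilinForm K (W i)) (v : MSp K W U) (j : κ)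
    (φ : Module.Dual K (U j)) : tot ω v (inD j φ) = φ (v.2 j).1 := by
  rw [tot_apply]
  have h1 : ∑ i, ω i (v.1 i) ((inD (K := K) (W := W) j φ).1 i) = 0 := by
    refine Finset.sum_eq_zero fun i _ => ?_
    show ω i (v.1 i) 0 = 0
    rw [map_zero]
  rw [h1, zero_add, Finset.sum_eq_single j]
  · show ((Pi.single j (0, φ) : ∀ j, U j × Module.Dual K (U j)) j).2 (v.2 j).1
      - (v.2 j).2 ((Pi.single j (0, φ) : ∀ j, U j × Module.Dual K (U j)) j).1 = _
    rw [Pi.single_eq_same]
    simp
  · intro b _ hb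
    show ((Pi.single j (0, φ) : ∀ j, U j × Module.Dual K (U j)) b).2 (v.2 b).1
      - (v.2 b).2 ((Pi.single j (0, φ) : ∀ j, U j × Module.Dual K (U j)) b).1 = 0
    rw [Pi.single_eq_of_ne hb]
    simp
  · intro h; exact absurd (Finset.mem_univ _) h

theorem ite_ite {X : Type*} [Zero X] {C : Type*} [DecidableEq C] (c c' x : C) (y : X) :
    (if c = x then (if c' = x then y else 0) else 0) = if c = c' then (if c = x then y else 0) else 0 := by
  by_cases h1 : c = x
  · by_cases h2 : c = c'
    · rw [if_pos h1, if_pos h2, if_pos h1, if_pos (h2.symm.trans h1)]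
    · rw [if_pos h1, if_neg h2, if_neg (fun h => h2 (h1.trans h.symm))]
  · rw [if_neg h1]
    split_ifs <;> rfl

theorem tot_dec [∀ i, FiniteDimensional K (W i)] [∀ j, FiniteDimensional K (U j)]
    {ω : ∀ i, LinearMap.BilinForm K (W i)} (hω : ∀ i, (ω i).Nondegenerate)
    (halt : ∀ i v w, ω i v w = - ω i w v) : Dec (tot (U := U) ω) (prj K W U) prt where
  nd := by
    have hL : ∀ v : MSp K W U, (∀ w, tot ω v w = 0) → v = 0 := by
      intro v hv
      refine msp_ext ?_ ?_ ?_
      · intro i
        apply (hω i).1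
        intro w
        rw [← tot_inW (U := U) ω v i w, hv]
      · intro j
        refine (Module.forall_dual_apply_eq_zero_iff K _).mp fun φ => ?_
        rw [← tot_inD ω v j φ, hv]
      · intro j
        refine LinearMap.ext fun u => ?_
        have := hv (inU j u)
        rw [tot_inU, neg_eq_zero] at this
        rw [this]; rfl
    refine ⟨hL, ?_⟩
    intro v hv
    refine hL v fun w => ?_
    rw [tot_sk halt, hv, neg_zero]
  alt := tot_sk halt
  idem := by
    intro c c'
    refine LinearMap.ext fun v => ?_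
    rw [Module.End.mul_apply]
    have h : ∀ X Y : Module.End K (MSp K W U), (if c = c' then X else Y) v = if c = c' then X v else Y v := by
      intro X Y; split_ifs <;> rfl
    rw [h]
    refine msp_ext ?_ ?_ ?_
    · intro i
      rw [prj_fst, prj_fst, ite_ite]
      split_ifs <;> simp_all [prj_fst]
    · intro j
      rw [prj_snd1, prj_snd1, ite_ite]
      split_ifs <;> simp_all [prj_snd1]
    · intro j
      rw [prj_snd2, prj_snd2, ite_ite]
      split_ifs <;> simp_all [prj_snd2]
  sum := by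
    refine LinearMap.ext fun v => ?_
    rw [LinearMap.sum_apply, Module.End.one_apply]
    refine msp_ext ?_ ?_ ?_
    · intro i
      rw [Prod.fst_sum, Finset.sum_apply]
      simp only [prj_fst]
      rw [Finset.sum_ite_eq', if_pos (Finset.mem_univ _)]
    · intro j
      rw [Prod.snd_sum, Finset.sum_apply, Prod.fst_sum]
      simp only [prj_snd1]
      rw [Finset.sum_ite_eq', if_pos (Finset.mem_univ _)]
    · intro j
      rw [Prod.snd_sum, Finset.sum_apply, Prod.snd_sum]
      simp only [prj_snd2]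
      rw [Finset.sum_ite_eq', if_pos (Finset.mem_univ _)]
  inv := by
    rintro (i | ⟨j, b⟩)
    · rfl
    · simp [prt]
  adj := by
    intro c v w
    rw [tot_apply, tot_apply]
    simp only [prj_fst, prj_snd1, prj_snd2, prt_inl, prt_false, prt_true]
    congr 1
    · refine Finset.sum_congr rfl fun k _ => ?_
      split_ifs <;> simp
    · refine Finset.sum_congr rfl fun k _ => ?_
      split_ifs <;> simp

end Pool.Agent.MFT
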