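import Pool.Agent.Lib_helper24.MF.F5

/-! Mixed first fundamental theorem: the form used for abelian varieties. -/

set_option linter.unusedSectionVars false
set_option linter.unusedSimpArgs false

namespace Pool.Agent.MFT

open Module Finset Equiv Pool.Agent.OT

variable {K : Type*} [Field K] [CharZero K]
variable {ι κ : Type*} [Fintype ι] [Fintype κ]
variable {W : ι → Type*} [∀ i, AddCommGroup (W i)] [∀ i, Module K (W i)]
  [∀ i, FiniteDimensional K (W i)]
variable {U : κ → Type*} [∀ j, AddCommGroup (U j)] [∀ j, Module K (U j)]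
  [∀ j, FiniteDimensional K (U j)]
variable {ω : ∀ i, LinearMap.BilinForm K (W i)}
variable {g : Type*} [LieRing g] [LieAlgebra K g]
  [∀ i, LieRingModule g (W i)] [∀ i, LieModule K g (W i)]
  [∀ j, LieRingModule g (U j)] [∀ j, LieModule K g (U j)]

/-- The action of the Lie algebra: on the dual spaces it is the contragredient action. -/
def actM (K : Type*) [Field K] {ι κ : Type*} {W : ι → Type*} [∀ i, AddCommGroup (W i)]
    [∀ i, Module K (W i)] {U : κ → Type*} [∀ j, AddCommGroup (U j)] [∀ j, Module K (U j)]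
    {g : Type*} [LieRing g] [LieAlgebra K g] [∀ i, LieRingModule g (W i)]
    [∀ j, LieRingModule g (U j)] [∀ j, LieModule K g (U j)] (y : g) (v : MSp K W U) : MSp K W U :=
  (fun i => ⁅y, v.1 i⁆, fun j => (⁅y, (v.2 j).1⁆, ⁅y, (v.2 j).2⁆))

theorem act_dual (y : g) (v : MSp K W U) (j : κ) (u : U j) :
    ((actM K y v).2 j).2 u = - (v.2 j).2 ⁅y, u⁆ := rfl

/-- The action as a linear map. -/
def actL (y : g) : Module.End K (MSp K W U) where
  toFun := actM K y
  map_add' v w := by
    refine msp_ext ?_ ?_ ?_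
    · intro i; exact lie_add _ _ _
    · intro i; exact lie_add _ _ _
    · intro i; exact lie_add _ _ _
  map_smul' r v := by
    refine msp_ext ?_ ?_ ?_
    · intro i; exact lie_smul _ _ _
    · intro i; exact lie_smul _ _ _
    · intro i; exact lie_smul _ _ _

theorem actL_apply (y : g) (v : MSp K W U) : actL y v = actM K y v := rfl

theorem actL_sk (hinv : ∀ i (x : g) (v w : W i), ω i ⁅x, v⁆ w = - ω i v ⁅x, w⁆) (y : g) :
    Sk (tot (U := U) ω) (actL y) := by
  intro v w
  rw [tot_apply, tot_apply, neg_add, ← Finset.sum_neg_distrib, ← Finset.sum_neg_distrib]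
  congr 1
  · exact Finset.sum_congr rfl fun i _ => hinv i y _ _
  · refine Finset.sum_congr rfl fun j _ => ?_
    show (w.2 j).2 ⁅y, (v.2 j).1⁆ - (-(v.2 j).2 ⁅y, (w.2 j).1⁆)
      = - (-(w.2 j).2 ⁅y, (v.2 j).1⁆ - (v.2 j).2 ⁅y, (w.2 j).1⁆)
    ring

theorem actL_comm [DecidableEq ι] [DecidableEq κ] (y : g) (c : ι ⊕ κ × Bool) :
    actL y * prj K W U c = prj K W U c * actL y := by
  refine LinearMap.ext fun v => ?_
  rw [Module.End.mul_apply, Module.End.mul_apply]
  refine msp_ext ?_ ?_ ?_
  · intro i
    show ⁅y, (prj K W U c v).1 i⁆ = _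
    rw [prj_fst, prj_fst]
    split_ifs
    · rfl
    · exact lie_zero _
  · intro j
    show ⁅y, ((prj K W U c v).2 j).1⁆ = _
    rw [prj_snd1, prj_snd1]
    split_ifs
    · rfl
    · exact lie_zero _
  · intro j
    show ⁅y, ((prj K W U c v).2 j).2⁆ = _
    rw [prj_snd2, prj_snd2]
    split_ifs
    · rfl
    · exact lie_zero _

/-- Every skew endomorphism commuting with the idempotents comes from the Lie algebra. -/
theorem exists_act [DecidableEq ι] [DecidableEq κ]
    (hfull : ∀ (x : ∀ i, Module.End K (W i)) (z : ∀ j, Module.End K (U j)),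
      (∀ i v w, ω i (x i v) w = - ω i v (x i w)) →
      ∃ y : g, (∀ i (v : W i), ⁅y, v⁆ = x i v) ∧ ∀ j (u : U j), ⁅y, u⁆ = z j u)
    (Y : Module.End K (MSp K W U)) (hY : Sk (tot (U := U) ω) Y)
    (hc : ∀ c, Y * prj K W U c = prj K W U c * Y) : ∃ y : g, Y = actL y := by
  have hc' : ∀ c v, Y (prj K W U c v) = prj K W U c (Y v) := fun c v => LinearMap.congr_fun (hc c) v
  -- components
  let x : ∀ i, Module.End K (W i) := fun i =>
    { toFun := fun w => (Y (inW i w)).1 i
      map_add' := fun v w => by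
        have : (inW i (v + w) : MSp K W U) = inW i v + inW i w := by
          unfold inW; rw [Pi.single_add]; simp
        rw [this, map_add]; rfl
      map_smul' := fun r v => by
        have : (inW i (r • v) : MSp K W U) = r • inW i v := by
          unfold inW; rw [Pi.single_smul]; simp
        rw [this, map_smul]; rfl }
  have hx : ∀ i w, x i w = (Y (inW i w)).1 i := fun _ _ => rfl
  let z : ∀ j, Module.End K (U j) := fun j =>
    { toFun := fun u => ((Y (inU j u)).2 j).1
      map_add' := fun v w => by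
        have : (inU j (v + w) : MSp K W U) = inU j v + inU j w := by
          unfold inU
          have h : ((v + w, 0) : U j × Module.Dual K (U j)) = (v, 0) + (w, 0) := by simp
          rw [h, Pi.single_add]; simp
        rw [this, map_add]; rfl
      map_smul' := fun r v => by
        have : (inU j (r • v) : MSp K W U) = r • inU j v := by
          unfold inU
          have h : ((r • v, 0) : U j × Module.Dual K (U j)) = r • (v, 0) := by simp
          rw [h, Pi.single_smul]; simp
        rw [this, map_smul]; rfl }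
  have hz : ∀ j u, z j u = ((Y (inU j u)).2 j).1 := fun _ _ => rfl
  have e1 : ∀ i (v : MSp K W U), prj K W U (Sum.inl i) v = inW i (v.1 i) := by
    intro i v
    refine msp_ext ?_ ?_ ?_
    · intro k
      rw [prj_fst]
      by_cases h : i = k
      · subst h
        rw [if_pos rfl, inW_self]
      · rw [if_neg (fun h' => h (Sum.inl.inj h'))]
        show 0 = (Pi.single i (v.1 i) : ∀ i, W i) k
        rw [Pi.single_eq_of_ne (Ne.symm h)]
    · intro k; rfl
    · intro k; rfl
  have e2 : ∀ j (v : MSp K W U), prj K W U (Sum.inr (j, false)) v = inU j (v.2 j).1 := by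
    intro j v
    refine msp_ext ?_ ?_ ?_
    · intro k; rfl
    · intro k
      rw [prj_snd1]
      by_cases h : j = k
      · subst h
        rw [if_pos rfl, inU_self]
      · rw [if_neg (fun h' => h (Prod.ext_iff.mp (Sum.inr.inj h')).1)]
        show 0 = ((Pi.single j ((v.2 j).1, 0) : ∀ j, U j × Module.Dual K (U j)) k).1
        rw [Pi.single_eq_of_ne (Ne.symm h)]; rfl
    · intro k
      rw [prj_snd2, if_neg (by simp)]
      show 0 = ((Pi.single j ((v.2 j).1, 0) : ∀ j, U j × Module.Dual K (U j)) k).2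
      by_cases h : j = k
      · subst h
        rw [Pi.single_eq_same]
      · rw [Pi.single_eq_of_ne (Ne.symm h)]; rfl
  have f1 : ∀ i (v : MSp K W U), (Y v).1 i = x i (v.1 i) := by
    intro i v
    rw [hx, ← e1, hc', e1, inW_self]
  have f2 : ∀ j (v : MSp K W U), ((Y v).2 j).1 = z j (v.2 j).1 := by
    intro j v
    rw [hz, ← e2, hc', e2, inU_self]
  obtain ⟨y, hy1, hy2⟩ := hfull x z (by
    intro i v w
    have h1 : ω i (x i v) w = tot (U := U) ω (Y (inW i v)) (inW i w) := by rw [tot_inW, hx]
    rw [h1, hY]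
    have h2 : Y (inW i w) = inW i (x i w) := by
      have : (inW i w : MSp K W U) = prj K W U (Sum.inl i) (inW i w) := by rw [e1, inW_self]
      rw [this, hc', e1, ← hx]
    rw [h2, tot_inW, inW_self])
  refine ⟨y, LinearMap.ext fun v => msp_ext ?_ ?_ ?_⟩
  · intro i
    rw [f1, ← hy1]; rfl
  · intro j
    rw [f2, ← hy2]; rfl
  · intro j
    refine LinearMap.ext fun u => ?_
    have h1 : ((Y v).2 j).2 u = - tot (U := U) ω (Y v) (inU j u) := by rw [tot_inU, neg_neg]
    have h2 : Y (inU j u) = inU j (z j u) := by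
      have : (inU j u : MSp K W U) = prj K W U (Sum.inr (j, false)) (inU j u) := by rw [e2, inU_self]
      rw [this, hc', e2, ← hz]
    rw [h1, hY, h2, tot_inU, ← hy2]
    show - - - (v.2 j).2 ⁅y, u⁆ = - (v.2 j).2 ⁅y, u⁆
    rw [neg_neg]

/-- Invariant alternating forms on a power of a sum of symplectic spaces and of pairs of dual spaces
are linear combinations of wedge products of invariant alternating 2-forms. -/
theorem part3X (hω : ∀ i, (ω i).Nondegenerate) (halt : ∀ i v w, ω i v w = - ω i w v)
    (hinv : ∀ i (x : g) (v w : W i), ω i ⁅x, v⁆ w = - ω i v ⁅x, w⁆)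
    (hfull : ∀ (x : ∀ i, Module.End K (W i)) (z : ∀ j, Module.End K (U j)),
      (∀ i v w, ω i (x i v) w = - ω i v (x i w)) →
      ∃ y : g, (∀ i (v : W i), ⁅y, v⁆ = x i v) ∧ ∀ j (u : U j), ⁅y, u⁆ = z j u)
    (n m : ℕ) (f : (Fin n → MSp K W U) [⋀^Fin m]→ₗ[K] K)
    (hf : ∀ (y : g) (v : Fin m → Fin n → MSp K W U),
      ∑ a, f (Function.update v a (fun t => actM K y (v a t))) = 0) :
    (fun v => f v) ∈ Submodule.span K {G : (Fin m → Fin n → MSp K W U) → K |
      ∃ (q : ℕ) (e : Fin q ⊕ Fin q ≃ Fin m) (B : Fin q → LinearMap.BilinForm K (Fin n → MSp K W U)),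
        (∀ r, (B r).IsAlt ∧ ∀ (y : g) (v w : Fin n → MSp K W U),
          B r (fun t => actM K y (v t)) w + B r v (fun t => actM K y (w t)) = 0) ∧
        G = fun v => ∑ σ : Perm (Fin m), ((Perm.sign σ : ℤ) : K) *
          ∏ r, B r (v (σ (e (Sum.inl r)))) (v (σ (e (Sum.inr r))))} := by
  classical
  have H := tot_dec (U := U) hω halt
  have h := part3M H n m f (by
    intro Y hY hYc v
    obtain ⟨y, rfl⟩ := exists_act hfull Y hY hYc
    exact hf y v)
  refine Submodule.span_mono ?_ h
  rintro G ⟨q, e, B, hB, rfl⟩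
  exact ⟨q, e, B, fun r => ⟨(hB r).1, fun y v w => (hB r).2 (actL y) (actL_sk hinv y) (actL_comm y) v w⟩,
    rfl⟩

end Pool.Agent.MFT
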